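import Pool.Agent.R806.MC.Conv

/-!
# Conjugacy of topologically transitive homeomorphisms of the Cantor space

Question Q2: topological conjugacy of the topologically transitive homeomorphisms of the Cantor space
is Borel bi-reducible with isomorphism of countable graphs (a maximal `S_∞`-action).

The definitions are in `Pool/Agent/R806/MC/Defs.lean`; the reduction of graph isomorphism takes its
values in the minimal homeomorphisms, which are topologically transitive, and the reduction in the
other direction is defined on all homeomorphisms of the Cantor space.
-/

set_option autoImplicit false

open Set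

namespace Pool.Agent.Results.MP_f7d718_lc.TransitiveConjugacy

open Pool.Agent.R806.MC

theorem isTransitive_of_isMinimal {T : Cantor ≃ₜ Cantor} (h : IsMinimal T) : IsTransitive T := by
  intro U V _ hV hUne hVne
  obtain ⟨x, hx⟩ := hUne
  obtain ⟨y, hyV, n, rfl⟩ := (h x).inter_open_nonempty V hV hVne
  exact ⟨n, (T ^ n) x, ⟨x, hx, rfl⟩, hyV⟩

/-- Isomorphism of countable graphs (a maximal `S_∞`-action) is Borel bi-reducible with topological
conjugacy of topologically transitive homeomorphisms of the Cantor space. -/
theorem result :
    BiRed GraphIso (fun S T : {T : Cantor ≃ₜ Cantor // IsTransitive T} => TopConj S.1 T.1) :=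
  bireducible_class IsTransitive fun _ h => isTransitive_of_isMinimal h

end Pool.Agent.Results.MP_f7d718_lc.TransitiveConjugacy
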